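import Mathlib
import Pool.Agent.U462.Sh.ZOn

set_option autoImplicit false

/-!
# Cunningham chains of the first kind: each length and every set of places
-/

namespace Pool.Agent.Results.MP_c77da8_nt.EachLengthAnyPlaces

open Finset Filter
open scoped Topology
open Pool.Agent.U462.Sh.Law

/-- **Each length, and every set of places.** For every `k ≥ 1` and every set `T` of natural numbers there is
a set `S` of rough numbers `≥ 2` which contains for no `p` in `T` the chain `p`, `2 (p + 1) - 1`, ...,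
`2 ^ k (p + 1) - 1` with `k + 1` members, with the uniform Hardy–Littlewood law for all systems of linear
forms and all intervals, except for those systems with `k + 1` forms `2 ^ i (l + 1) - 1`, `i ≤ k`, for which
`l` has in the interval a value in `T`; in particular for all systems which give the chains with `k` members
and for all systems of at most `k` forms. -/
theorem result : ∀ k : ℕ, 1 ≤ k → ∀ T : Set ℕ, ∃ S : Set ℕ, (∀ m ∈ S, 2 ≤ m ∧ Rough m) ∧
    (∀ p ∈ T, ∃ i ≤ k, 2 ^ i * (p + 1) - 1 ∉ S) ∧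
    LawOn S (fun L u v => ∀ a b : ℤ, (∀ i : ℕ, i ≤ k → (2 ^ i * a, 2 ^ i * (b + 1) - 1) ∈ L) →
      ∀ m : ℕ, u ≤ m → m < v → value (a, b) m ∉ T) := by
  classical
  intro k _ T
  obtain ⟨S, h1, h2, h3⟩ := Pool.Agent.U462.Sh.patOn
    {(range (k + 1)).image fun i => (((2 : ℤ) ^ i, (2 : ℤ) ^ i - 1) : ℤ × ℤ)} (by
    intro P hP
    rw [mem_singleton] at hP
    subst hP
    refine ⟨mem_image.2 ⟨0, by simp, by simp⟩, ?_⟩
    intro l hl
    obtain ⟨i, _, rfl⟩ := mem_image.1 hl
    exact one_le_pow₀ (by norm_num)) (fun _ => T)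
  refine ⟨S, h1, ?_, Pool.Agent.U462.Sh.on_mono ?_ h3⟩
  · intro p hp
    by_contra hcon
    push Not at hcon
    apply h2 _ (mem_singleton_self _) p hp
    intro l hl
    obtain ⟨i, hi, rfl⟩ := mem_image.1 hl
    rw [mem_range] at hi
    refine ⟨_, hcon i (by omega), ?_⟩
    have h5 : 1 ≤ 2 ^ i * (p + 1) := Nat.mul_pos (by positivity) (by omega)
    push_cast [Nat.cast_sub h5]
    ring
  · intro L u v hL P hP l₀ hl₀ hall
    rw [mem_singleton] at hP
    subst hP
    apply hL l₀.1 l₀.2
    intro i hi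
    have h4 := hall _ (mem_image.2 ⟨i, mem_range.2 (by omega), rfl⟩)
    have h5 : (2 : ℤ) ^ i * (l₀.2 + 1) - 1 = 2 ^ i * l₀.2 + (2 ^ i - 1) := by ring
    rw [h5]
    exact h4

end Pool.Agent.Results.MP_c77da8_nt.EachLengthAnyPlaces
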