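import Mathlib
import Pool.Agent.U289.NY.Start

/-!
# Many positions of the chains at once, near almost all starting points

Let `S z = a z + b` with `a ≥ 2` and `b` coprime to `a`; for `a = 2`, `b = 1` the sequences of the iterates are the
Cunningham chains of the first kind (`b = -1`: second kind). Let `q ≥ 1`, let `(τ_0, x_0), (τ_1, x_1), …` be any
distinct pairs of a natural number and an integer (for instance all `τ_j = 0`, or all `x_j = 0`), let `W_0, W_1, …` be
any finite nonempty sets of natural numbers, and let `η > 0`. There is a set `𝒮` of positions with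
`|𝒮 ∩ W_t| ≥ (5/18 - η) |W_t|` for infinitely many `t`, such that the following holds for EVERY finite subset `I` of
`𝒮`, `0 < ε < 1` and arbitrary integers `k_j`, `m_j ≥ 1`.

There are numbers `C_0, C_1, …` such that for ALL integers `v_{j,i}`, `i < k_j`, and ALL finitely supported
probability measures `μ_0, μ_1, …` on the natural numbers there are sets `E_e` of integers, one for each position
`e ∈ I`, and `J_0 < J_1 < …` with the following two properties.

(1) For infinitely many `t` the set of the `j`, for which at least `(1 - ε) k_j` of the intervals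
`[v_{j,i}, v_{j,i} + C_j]` contain at least `m_j` elements of EVERY set `E_e`, `e ∈ I`, has `μ_t`-measure at least
`1 - ε`.

(2) The elements of the sets `E_e` can be combined freely: for all `k`, `c` and `i_1 < ⋯ < i_k` with `k, c ≤ i_1`,
for every length `l` and every `B` there are `C` and arbitrarily large `N`, the same for ALL choices of
`e_1, …, e_k ∈ I` and `s_u ∈ E_{e_u}`, `|s_u| ≤ c`, and for all `J ⊆ {1, …, k}`, such that for some
`1 ≤ d ≤ (log N) ^ C` there are at least `N / (log N) ^ C` integers `n ≤ N` with: for each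
`m = n, n + d, …, n + (l - 1) d`, among the iterates at the times `q (τ_{J_{i_u}} + e_u)` of the starting points
`m + x_{J_{i_u}} + s_u` exactly those with `u ∈ J` are prime, and NO iterate at a time `≤ B` not divisible by `q`, of
any starting point `m + z`, `|z| ≤ B`, is prime.

The question asks for a starting point such that the members at ALL positions of the chain are prime. Here (all
`τ_j = 0`, `q = 1`) the primes are the members at the positions `e ∈ I` of chains whose starting points may be chosen
within bounded distance of each other, near almost any given points, with a finite set `I` of positions as large as we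
like, taken from a set which contains more than a quarter of infinitely many of any given sets of positions.
(The numbers `C_j` depend on `I` but not on the `v_{j,i}` and the measures.)

New compared with the starting files and my hand-ins: `MP_c77da8_nt.MostRowsOfPositions` (start) and
`MP_f686a1_nt.FreeClusters`, `MP_77cbc6_nt.FreeTimes` concern ONE form up to translation (or iteration). Here
there are many types of forms, which cannot be reached from each other by the bounded changes allowed. For a
set of types which is not large one cannot exclude by these methods that some of the types never occur together; the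
theorem finds one large set of types which occur all together near almost all points.

Proof. Labels are pairs (shift, position); a set of labels is free if the iterated limit of the statement (2) along
an ultrafilter is true; translations preserve free sets and positions. By the coloured Maynard-Tao theorem
(`Pool.Agent.Y827.HN.patR`, starting files) a free set contains, for any weights, labels of the proportion `5/18`
inside windows whose sizes depend on the index only; so for at least `η` of the weight the set of the positions which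
occur has the proportion `5/18 - η`. If for each of the finitely many large sets `I` of positions the theorem with
some proportion `ρ < 1` were false for all `(C_j)`, bad configurations for all the `I` could be placed inside each
other, again and again, until every free set contains all the positions of some `I` with weight less than `η`
(`Pool.Agent.U289.NY.nest`). Infinitely many windows of positions and infinitely many measures: Pták's lemma on
convex means (`Pool.Agent.Helper639.Tk.ptak`, starting files).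
-/

set_option autoImplicit false

namespace Pool.Agent.Results.MP_c77da8_nt.TypedPositions

open Filter Finset

/-- the map `z ↦ a z + b`; for `a = 2`, `b = 1` that of the Cunningham chains of the first kind -/
def S (a : ℕ) (b : ℤ) (z : ℤ) : ℤ := a * z + b

/-- among the iterates at the times `(f u).1` of the starting points `m + (f u).2` exactly those with `u ∈ J` are
prime, and no iterate at a time `v ≤ B` not divisible by `q` of a starting point `m + z`, `|z| ≤ B`, is prime -/
def Pattern (a : ℕ) (b : ℤ) (q B : ℕ) {k : ℕ} (f : Fin k → ℕ × ℤ) (J : Finset (Fin k)) (m : ℕ) : Prop :=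
  (∀ u : Fin k, ((S a b)^[(f u).1] ((m : ℤ) + (f u).2)).toNat.Prime ↔ u ∈ J) ∧
    ∀ z : ℤ, |z| ≤ B → ∀ v ≤ B, ¬ q ∣ v → ¬ ((S a b)^[v] ((m : ℤ) + z)).toNat.Prime

open Classical in
/-- the number of the `1 ≤ n ≤ N` such that all of `n, n + d, …, n + (l - 1) d` have the pattern -/
noncomputable def count (a : ℕ) (b : ℤ) (q B : ℕ) {k : ℕ} (f : Fin k → ℕ × ℤ) (J : Finset (Fin k))
    (l d N : ℕ) : ℕ :=
  ((Icc 1 N).filter (fun n : ℕ => ∀ i < l, Pattern a b q B f J (n + i * d))).card

/-- all patterns occur, at arbitrarily large common scales `N`, for all the vectors in `𝓕` of pairs (time, shift) -/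
def AllGood (a : ℕ) (b : ℤ) (q : ℕ) {k : ℕ} (𝓕 : Set (Fin k → ℕ × ℤ)) : Prop :=
  ∀ l B : ℕ, ∃ C : ℕ, ∃ᶠ N : ℕ in atTop, ∀ f ∈ 𝓕, ∀ J : Finset (Fin k),
    ∃ d : ℕ, 1 ≤ d ∧ (d : ℝ) ≤ (Real.log N) ^ C ∧
      (N : ℝ) / (Real.log N) ^ C ≤ (count a b q B f J l d N : ℝ)

/-- the property `Q` holds for at least `(1 - ε) k` of the numbers `i < k` -/
def Most (ε : ℝ) (k : ℕ) (Q : ℕ → Prop) : Prop := ∃ R ⊆ range k, (1 - ε) * k ≤ (R.card : ℝ) ∧ ∀ i ∈ R, Q i

open Classical in
/-- **Many positions of the chains at once.** -/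
theorem result (a : ℕ) (b : ℤ) (ha : 2 ≤ a) (hab : IsCoprime (a : ℤ) b) (q : ℕ) (hq : 1 ≤ q)
    (τ : ℕ → ℕ) (x : ℕ → ℤ) (hτx : Function.Injective (fun j => (τ j, x j)))
    (W : ℕ → Finset ℕ) (hW : ∀ t, (W t).Nonempty) (η : ℝ) (hη : 0 < η) :
    ∃ 𝒮 : Set ℕ, (∃ᶠ t in atTop, (5 / 18 - η) * ((W t).card : ℝ) ≤ ((𝒮 ∩ (W t : Set ℕ)).ncard : ℝ)) ∧
      ∀ I : Finset ℕ, (I : Set ℕ) ⊆ 𝒮 → ∀ (ε : ℝ), 0 < ε → ε < 1 → ∀ (k m : ℕ → ℕ), (∀ j, 1 ≤ k j) →
      (∀ j, 1 ≤ m j) →
      ∃ C : ℕ → ℕ, ∀ (v : ℕ → ℕ → ℤ) (μ : ℕ → ℕ → ℝ) (T : ℕ → ℕ), (∀ t j, 0 ≤ μ t j) →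
        (∀ t, ∑ j ∈ range (T t), μ t j = 1) →
        ∃ (E : ℕ → Set ℤ) (J : ℕ → ℕ), StrictMono J ∧
          (∃ᶠ t in atTop, 1 - ε ≤ ∑ j ∈ (range (T t)).filter (fun j => Most ε (k j) (fun i =>
            ∀ e ∈ I, m j ≤ (E e ∩ Set.Icc (v j i) (v j i + C j)).ncard)), μ t j) ∧
          ∀ (n c : ℕ) (i : Fin n → ℕ), StrictMono i → (∀ u, n ≤ i u ∧ c ≤ i u) →
            AllGood a b q {f : Fin n → ℕ × ℤ | ∃ (e : Fin n → ℕ) (s : Fin n → ℤ),
              (∀ u, e u ∈ I ∧ s u ∈ E (e u) ∧ |s u| ≤ c) ∧
              ∀ u, f u = (q * (τ (J (i u)) + e u), x (J (i u)) + s u)} := by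
  obtain ⟨𝒮, h𝒮, hmain⟩ := Pool.Agent.U289.NY.start a b ha hab q τ x hτx W hW η hη hq
  refine ⟨𝒮, h𝒮, fun I hI ε hε hε1 k m hk hm => ?_⟩
  obtain ⟨C0, hC0⟩ := hmain I (fun e he => hI he) ε hε hε1 k m hk hm
  have hB : ∀ j, ∃ B : ℕ, ∀ c ∈ C0 j, -(B : ℤ) ≤ c ∧ c ≤ B := by
    intro j
    refine ⟨(C0 j).sup Int.natAbs, fun c hc => ?_⟩
    have h1 : c.natAbs ≤ (C0 j).sup Int.natAbs := Finset.le_sup hc
    omega
  choose B hB using hB
  refine ⟨fun j => 2 * B j, fun v μ T hμ hμ1 => ?_⟩
  obtain ⟨E, J, hJ, h1, h2⟩ := hC0 (fun j i => v j i + B j) μ T hμ hμ1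
  refine ⟨E, J, hJ, h1.mono fun t ht => ht.trans ?_, fun n c i hi hnc l B' => ?_⟩
  · rw [← Pool.Agent.U289.NX.sum_ind (T t) (μ t) (fun j => Most ε (k j) (fun i =>
      ∀ e ∈ I, m j ≤ (E e ∩ Set.Icc (v j i) (v j i + ((2 * B j : ℕ) : ℤ))).ncard))]
    refine sum_le_sum fun j _ => mul_le_mul_of_nonneg_left (Pool.Agent.U289.NX.ind_mono ?_) (hμ t j)
    rintro ⟨R, hR, hRk, hRi⟩
    refine ⟨R, hR, hRk, fun i hi e he => ?_⟩
    obtain ⟨E', hE', hEm, hES⟩ := hRi i hi e he
    rw [← hEm]
    have h3 : ((E'.image (fun c => v j i + B j + c) : Finset ℤ) : Set ℤ) ⊆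
        E e ∩ Set.Icc (v j i) (v j i + ((2 * B j : ℕ) : ℤ)) := by
      intro y hy
      obtain ⟨c, hc, rfl⟩ := mem_image.1 (mem_coe.1 hy)
      obtain ⟨h4, h5⟩ := hB j c (hE' hc)
      refine ⟨hES c hc, ?_, ?_⟩
      · linarith
      · push_cast
        linarith
    have h4 := Set.ncard_le_ncard h3 ((Set.finite_Icc _ _).subset Set.inter_subset_right)
    rw [Set.ncard_coe_finset, card_image_of_injective _ (add_right_injective _)] at h4
    exact h4
  · obtain ⟨C', hC'⟩ := h2 (Icc (-(c : ℤ)) c) n i hi
      (fun u => ⟨(hnc u).1, Icc_subset_Icc (by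
        have h1 := (hnc u).2
        have h2 : (c : ℤ) ≤ i u := by exact_mod_cast h1
        linarith) (by exact_mod_cast (hnc u).2)⟩) l
        (((Icc (-(B' : ℤ)) B') ×ˢ ((range (B' + 1)).filter (fun v => ¬ q ∣ v))).image
          (fun zv : ℤ × ℕ => Pool.Agent.U289.NX.comp (1, zv.1) (Pool.Agent.U289.NX.fO a b zv.2)))
        (by
          intro g hg
          obtain ⟨zv, hzv, rfl⟩ := mem_image.1 hg
          exact ⟨zv.2, zv.1, (mem_filter.1 (mem_product.1 hzv).2).2, rfl⟩)
    refine ⟨C', hC'.mono fun N hN f hf J' => ?_⟩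
    obtain ⟨e, s, hes, hf⟩ := hf
    obtain ⟨d, hd1, hd2, hd3⟩ := hN _ ⟨e, s, fun u => ⟨(hes u).1, mem_Icc.2 (abs_le.1 (hes u).2.2), (hes u).2.1⟩,
      fun u => rfl⟩ J'
    refine ⟨d, hd1, hd2, hd3.trans ?_⟩
    rw [Nat.cast_le]
    unfold Pool.Agent.U289.NX.startsE count
    apply card_le_card
    intro n' hn'
    rw [mem_filter] at hn' ⊢
    refine ⟨hn'.1, fun i' hi' => ?_⟩
    obtain ⟨h3, h4⟩ := hn'.2 i' hi'
    have hval : ∀ (v : ℕ) (z : ℤ), (Pool.Agent.U289.NX.comp (1, z) (Pool.Agent.U289.NX.fO a b v)).1 *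
        ((n' + i' * d : ℕ) : ℤ) + (Pool.Agent.U289.NX.comp (1, z) (Pool.Agent.U289.NX.fO a b v)).2 =
        (S a b)^[v] (((n' + i' * d : ℕ) : ℤ) + z) := by
      intro v z
      have h5 := Pool.Agent.U289.NX.fO_val a b v (((n' + i' * d : ℕ) : ℤ) + z)
      have h6 : (S a b) = (fun z : ℤ => a * z + b) := rfl
      rw [h6, ← h5]
      simp only [Pool.Agent.U289.NX.comp]
      ring
    refine ⟨fun u => ?_, fun z hz v hv hqv => ?_⟩
    · have h5 := h3 u
      simp only [Pool.Agent.U289.NY.comp_one, hval] at h5
      rw [hf u]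
      simp only
      rw [add_comm (x (J (i u))) (s u)]
      exact h5
    · have h5 := h4 _ (mem_image.2 ⟨(z, v), mk_mem_product (mem_Icc.2 (abs_le.1 hz))
        (mem_filter.2 ⟨mem_range.2 (by omega), hqv⟩), rfl⟩)
      rw [hval] at h5
      exact h5

end Pool.Agent.Results.MP_c77da8_nt.TypedPositions
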